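import Pool.Agent.Helper91.Kissing.Rate

/-!
Kissing configurations with an irreducible symmetry group and a nontrivial symmetry that moves
few dimensions: a uniform upper bound for their size in terms of kissing numbers of much smaller
dimension, and the resulting two-sided linear estimate for their exponential growth rate.

The definitions used in the statement are in `Pool/Agent/Helper91/Kissing/Basic.lean`
(`IsKissing`, `tau`), `Avg.lean` (`fixedSpace`, `IsIrreducibleGroup`), `Main.lean` (`Preserves`),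
`Iter.lean` (`movedDim`), `Asymp.lean` (`cPlus`) and `Rate.lean` (`HasSmallSymmetry`, `symTau`,
`symRate`).
-/

open Pool.Agent.Helper91.Kissing

namespace Pool.Agent.Results.MP_b5f63d_co.SmallSupportSymmetry

/-- (1) For every `η > 0` there is `β` such that every kissing configuration `C` in `ℝ^d`, preserved
by an irreducible group `G` of isometries containing some `g ≠ 1` that moves `k` dimensions,
satisfies `|C| ≤ d^β τ(⌊(4 + η) k⌋)`.
(2) For `0 < κ ≤ 1/4` the growth rate `symRate κ` of the largest such configurations with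
`k ≤ κ d` satisfies `(κ/2) log₂(27/16) ≤ symRate κ ≤ 4 κ c_+`. -/
theorem result :
    (∀ η : ℝ, 0 < η → ∃ β : ℕ, ∀ d : ℕ,
      ∀ C : Finset (EuclideanSpace ℝ (Fin d)), IsKissing C →
        ∀ G : Subgroup (EuclideanSpace ℝ (Fin d) ≃ₗᵢ[ℝ] EuclideanSpace ℝ (Fin d)),
          Preserves G C → IsIrreducibleGroup G → ∀ g ∈ G, g ≠ 1 →
            C.card ≤ d ^ β * tau ⌊(4 + η) * movedDim g⌋₊) ∧
    (∀ κ : ℝ, 0 < κ → κ ≤ 1 / 4 →
      κ / 2 * Real.logb 2 (27 / 16) ≤ symRate κ ∧ symRate κ ≤ 4 * κ * cPlus) :=
  ⟨finite_bound, fun _ hκ hκ4 => ⟨le_symRate' hκ hκ4, symRate_le hκ.le⟩⟩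

end Pool.Agent.Results.MP_b5f63d_co.SmallSupportSymmetry
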